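import Pool.Agent.H377Z.Cap.Ker

set_option autoImplicit false

open MeasureTheory Filter Topology Set
open scoped ENNReal InnerProductSpace ComplexConjugate

namespace Pool.Agent.H377Z.Cap

lemma norm_sq_L2 (v : L2) : ‖v‖ ^ 2 = ∫ x, ‖v x‖ ^ 2 ∂mT := by
  have h := inner_L2 v v
  rw [inner_self_eq_norm_sq_to_K] at h
  simp_rw [Complex.conj_mul'] at h
  have h2 : ∫ x, ((‖v x‖ : ℂ)) ^ 2 ∂mT = ((∫ x, ‖v x‖ ^ 2 ∂mT : ℝ) : ℂ) := by
    rw [← integral_complex_ofReal]
    simp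
  rw [h2] at h
  have h3 : ((‖v‖ ^ 2 : ℝ) : ℂ) = ((∫ x, ‖v x‖ ^ 2 ∂mT : ℝ) : ℂ) := by
    rw [← h]; push_cast; rfl
  exact_mod_cast h3

lemma int_ind {U : Set UnitAddCircle} (hU : MeasurableSet U) (C : ℝ) :
    ∫ x, U.indicator (fun _ => C) x ∂mT = C * mT.real U := by
  rw [integral_indicator_const _ hU, smul_eq_mul, mul_comm]

lemma int_ofReal {g : UnitAddCircle → ℝ} (hg : Integrable g mT) :
    Integrable (fun x => ((g x : ℝ) : ℂ)) mT := hg.ofReal

lemma test_fun {k f : UnitAddCircle → ℂ} (hk : Continuous k) (hf : MemLp f 2 mT)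
    {U1 U2 : Set UnitAddCircle} (m1 : MeasurableSet U1) (m2 : MeasurableSet U2)
    (hd : Disjoint U1 U2) {L m M : ℝ} (hL : 0 < L) (hM : 0 < M) (hm : 0 ≤ m) (hmM : 2 * m ≤ M)
    (a1 : mT.real U1 = L) (a2 : mT.real U2 = L) (k1 : ∀ x ∈ U1, ‖k x‖ ≤ m)
    (k2 : ∀ x ∈ U2, M ≤ ‖k x‖) (hf1 : ∀ᵐ x ∂mT, x ∈ U1 ∪ U2 → ‖f x‖ = 1) :
    ∃ v : L2, (∀ᵐ x ∂mT, x ∉ U1 ∪ U2 → v x = 0) ∧ ∫ x, conj (k x) * v x ∂mT = 0 ∧
      ‖v‖ ^ 2 ≤ 5 / 4 * L ∧ L / 2 ≤ ‖∫ x, conj (v x) * f x ∂mT‖ := by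
  have hk2 : MemLp k 2 mT := memLp_cont hk 2
  have hp : MemLp (U1.indicator f) 2 mT := hf.indicator m1
  have hq : MemLp (U2.indicator k) 2 mT := hk2.indicator m2
  have ik : Integrable (U2.indicator fun x => ‖k x‖ ^ 2) mT :=
    (memLp_two_iff_integrable_sq_norm hk2.1).1 hk2 |>.indicator m2
  set K : ℝ := ∫ x, U2.indicator (fun x => ‖k x‖ ^ 2) x ∂mT with hK
  have hK1 : M ^ 2 * L ≤ K := by
    rw [← a2, ← int_ind m2]
    refine integral_mono ((integrable_const _).indicator m2) ik fun x => ?_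
    by_cases hx : x ∈ U2
    · simp only [indicator_of_mem hx]
      have := k2 x hx
      gcongr
    · simp [indicator_of_notMem hx]
  have hK0 : 0 < K := lt_of_lt_of_le (by positivity) hK1
  set al : ℂ := ∫ x, conj (k x) * U1.indicator f x ∂mT with hal
  have hal1 : ‖al‖ ≤ m * L := by
    rw [← a1, ← int_ind m1]
    refine norm_integral_le_of_norm_le ((integrable_const _).indicator m1) ?_
    filter_upwards [hf1] with x hx
    by_cases h : x ∈ U1
    · simp only [indicator_of_mem h]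
      rw [norm_mul, hx (Or.inl h), mul_one, Complex.norm_conj]
      exact k1 x h
    · simp [indicator_of_notMem h]
  set t : ℂ := al / K with ht
  have ht1 : ‖t‖ * K ≤ m * L := by
    rw [ht, norm_div, Complex.norm_real, Real.norm_of_nonneg hK0.le, div_mul_cancel₀ _ hK0.ne']
    exact hal1
  have hv : MemLp (fun x => U1.indicator f x - t * U2.indicator k x) 2 mT :=
    hp.sub (hq.const_mul t)
  have hkc : MemLp (fun x => conj (k x)) 2 mT := hk2.star
  refine ⟨hv.toLp, ?_, ?_, ?_, ?_⟩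
  · filter_upwards [hv.coeFn_toLp] with x hx h
    rw [hx, indicator_of_notMem (fun h' => h (Or.inl h')),
      indicator_of_notMem (fun h' => h (Or.inr h'))]
    simp
  · have e : (fun x => conj (k x) * (hv.toLp _ : L2) x) =ᵐ[mT] fun x =>
        conj (k x) * U1.indicator f x - t * (U2.indicator (fun x => ‖k x‖ ^ 2) x : ℝ) := by
      filter_upwards [hv.coeFn_toLp] with x hx
      rw [hx]
      by_cases h : x ∈ U2
      · simp only [indicator_of_mem h]
        push_cast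
        rw [← Complex.conj_mul']
        ring
      · simp [indicator_of_notMem h]
    rw [integral_congr_ae e, integral_sub (int_mul2 hkc hp) ((int_ofReal ik).const_mul _),
      integral_const_mul, integral_complex_ofReal, ← hK, ← hal, ht,
      div_mul_cancel₀ _ (by exact_mod_cast hK0.ne'), sub_self]
  · have e : (fun x => ‖(hv.toLp _ : L2) x‖ ^ 2) =ᵐ[mT] fun x =>
        U1.indicator (fun _ => (1 : ℝ)) x + ‖t‖ ^ 2 * U2.indicator (fun x => ‖k x‖ ^ 2) x := by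
      filter_upwards [hv.coeFn_toLp, hf1] with x hx hx1
      rw [hx]
      by_cases h : x ∈ U1
      · have h' : x ∉ U2 := fun h' => hd.notMem_of_mem_left h h'
        simp [indicator_of_mem h, indicator_of_notMem h', hx1 (Or.inl h)]
      · by_cases h' : x ∈ U2
        · simp [indicator_of_mem h', indicator_of_notMem h, mul_pow]
        · simp [indicator_of_notMem h', indicator_of_notMem h]
    rw [norm_sq_L2, integral_congr_ae e, integral_add ((integrable_const _).indicator m1)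
      (ik.const_mul _), int_ind m1, integral_const_mul, ← hK, a1]
    have h1 : (‖t‖ ^ 2 * K) * K ≤ (L / 4) * K := by
      have h2 : (‖t‖ * K) ^ 2 ≤ (m * L) ^ 2 := by gcongr
      have h3 : (2 * m) ^ 2 ≤ M ^ 2 := by gcongr
      have h4 : (2 * m) ^ 2 * L * L ≤ K * L := by
        have : (2 * m) ^ 2 * L ≤ K := le_trans (by gcongr) hK1
        gcongr
      nlinarith
    have h5 := le_of_mul_le_mul_right h1 hK0
    linarith
  · have e : (fun x => conj ((hv.toLp _ : L2) x) * f x) =ᵐ[mT] fun x =>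
        (U1.indicator (fun _ => (1 : ℝ)) x : ℝ) - conj t * (conj (U2.indicator k x) * f x) := by
      filter_upwards [hv.coeFn_toLp, hf1] with x hx hx1
      rw [hx]
      by_cases h : x ∈ U1
      · simp only [indicator_of_mem h, map_sub, map_mul, sub_mul]
        rw [Complex.conj_mul', hx1 (Or.inl h)]
        push_cast
        ring
      · simp [indicator_of_notMem h, mul_assoc]
    have i1 : Integrable (U1.indicator fun _ => (1 : ℝ)) mT := (integrable_const _).indicator m1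
    have hqc : MemLp (fun x => conj (U2.indicator k x)) 2 mT := hq.star
    rw [integral_congr_ae e, integral_sub (int_ofReal i1) ((int_mul2 hqc hf).const_mul _),
      integral_complex_ofReal, int_ind m1, a1, integral_const_mul]
    have h1 : ‖∫ x, conj (U2.indicator k x) * f x ∂mT‖ ≤ M⁻¹ * K := by
      rw [hK, ← integral_const_mul]
      refine norm_integral_le_of_norm_le (ik.const_mul _) ?_
      filter_upwards [hf1] with x hx
      by_cases h : x ∈ U2
      · simp only [indicator_of_mem h]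
        rw [norm_mul, hx (Or.inr h), mul_one, Complex.norm_conj]
        have h2 := k2 x h
        rw [inv_mul_eq_div, le_div_iff₀ hM, sq]
        gcongr
      · simp [indicator_of_notMem h]
    have h2 : ‖conj t * ∫ x, conj (U2.indicator k x) * f x ∂mT‖ ≤ L / 2 := by
      rw [norm_mul, Complex.norm_conj]
      calc _ ≤ ‖t‖ * (M⁻¹ * K) := by gcongr
        _ = (‖t‖ * K) / M := by ring
        _ ≤ (m * L) / M := by gcongr
        _ ≤ L / 2 := by
          rw [div_le_iff₀ hM]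
          nlinarith
    have h3 := norm_sub_norm_le (((1 * L : ℝ)) : ℂ)
      (conj t * ∫ x, conj (U2.indicator k x) * f x ∂mT)
    rw [Complex.norm_real, Real.norm_of_nonneg (by positivity)] at h3
    linarith

variable {l : ℝ}

lemma memLp_b_mul (b : Lp ℂ ∞ mT) {h : UnitAddCircle → ℂ} (hh : MemLp h 2 mT) :
    MemLp (fun x => b x * h x) 2 mT := MemLp.mul' (r := 2) hh (Lp.memLp b)

lemma memLp_b (b : Lp ℂ ∞ mT) : MemLp b 2 mT := (Lp.memLp b).mono_exponent le_top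

lemma inner_proj (v : L2) {w : UnitAddCircle → ℂ} (hw : MemLp w 2 mT) (aw : An w) :
    ∫ x, conj ((H2.orthogonalProjectionOnto v : L2) x) * w x ∂mT = ∫ x, conj (v x) * w x ∂mT := by
  have hm : hw.toLp ∈ H2 := (mem_H2 _).2 (aw.congr hw.coeFn_toLp.symm)
  have h := Submodule.inner_orthogonalProjectionOnto_eq_of_mem_right (K := H2) ⟨_, hm⟩ v
  rw [Submodule.coe_inner, inner_L2, inner_L2] at h
  have e : ∀ y : L2, ∫ x, conj (y x) * (hw.toLp _ : L2) x ∂mT = ∫ x, conj (y x) * w x ∂mT := by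
    intro y
    refine integral_congr_ae ?_
    filter_upwards [hw.coeFn_toLp] with x hx
    rw [hx]
  rw [← e, ← e]
  exact h

lemma defect_small (b : Lp ℂ ∞ mT) (hb : ∀ᵐ x ∂mT, ‖b x‖ ≤ 1) (ab : An b) (h0 : 0 ≤ l)
    (h1 : l < 1) {c : ℂ} (hc : ‖c‖ = 1) {ε : ℝ} (hε : 0 ≤ ε) {U : Set UnitAddCircle}
    (happ : ∀ᵐ x ∂mT, x ∈ U → ‖b x - c * BB l x‖ ≤ ε) (v : L2)
    (hv : ∀ᵐ x ∂mT, x ∉ U → v x = 0) (hvk : ∫ x, conj (kk l x) * v x ∂mT = 0) :
    ‖defect b (H2.orthogonalProjectionOnto v)‖ ^ 2 ≤ 2 * ε * ‖v‖ ^ 2 := by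
  obtain ⟨-, f2, -⟩ := sqrt_facts (toeplitz b) (toeplitz (star b)) (toeplitz_le b hb)
    (toeplitz_adj b)
  set u : H2 := H2.orthogonalProjectionOnto v with hu
  have huv : ‖u‖ ≤ ‖v‖ := H2.norm_orthogonalProjectionOnto_apply_le v
  have au : An (u : L2) := (mem_H2 _).1 u.2
  have mu : MemLp (u : L2) 2 mT := Lp.memLp _
  have huk : ∫ x, conj (kk l x) * (u : L2) x ∂mT = 0 := by
    have h := inner_proj v (memLp_cont (cont_kk h0 h1) 2) (an_kk h0 h1)
    have e : ∀ y : L2, ∫ x, conj (kk l x) * y x ∂mT = conj (∫ x, conj (y x) * kk l x ∂mT) := by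
      intro y
      rw [← integral_conj]
      simp [mul_comm]
    rw [e, h, ← e, hvk]
  have cB : Continuous fun x => conj (BB l x) := Complex.continuous_conj.comp (cont_BB h0 h1)
  have ah := an_div h0 h1 mu au huk
  have my : MemLp (fun x => conj c * (conj (BB l x) * (u : L2) x)) 2 mT :=
    (memLp_mul cB mu).const_mul _
  have ay : An fun x => conj c * (conj (BB l x) * (u : L2) x) := by
    intro n
    have e : ∀ x, fourier (n + 1 : ℤ) x * (conj c * (conj (BB l x) * (u : L2) x))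
        = conj c * (fourier (n + 1 : ℤ) x * (conj (BB l x) * (u : L2) x)) := fun x => by ring
    simp_rw [e]
    rw [integral_const_mul, ah n, mul_zero]
  have hm : my.toLp ∈ H2 := (mem_H2 _).2 (ay.congr my.coeFn_toLp.symm)
  set y : H2 := ⟨my.toLp, hm⟩ with hy
  have ny : ‖y‖ ^ 2 = ‖u‖ ^ 2 := by
    show ‖my.toLp‖ ^ 2 = ‖(u : L2)‖ ^ 2
    rw [norm_sq_L2, norm_sq_L2]
    refine integral_congr_ae ?_
    filter_upwards [my.coeFn_toLp] with x hx
    rw [hx, norm_mul, norm_mul, Complex.norm_conj, Complex.norm_conj, hc, norm_BB h0 h1]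
    simp
  have mby : MemLp (fun x => b x * (y : L2) x) 2 mT := memLp_b_mul b (Lp.memLp _)
  have e1 : ⟪toeplitz (star b) u, y⟫_ℂ = ∫ x, conj (v x) * (b x * (y : L2) x) ∂mT := by
    rw [toeplitz_adj, inner_toeplitz]
    exact inner_proj v mby (An.mul (memLp_b b) (Lp.memLp _) ab ((mem_H2 _).1 hm))
  have e2 : ∫ x, conj (v x) * (u : L2) x ∂mT = ((‖u‖ ^ 2 : ℝ) : ℂ) := by
    rw [← inner_proj v mu au, ← inner_L2, inner_self_eq_norm_sq_to_K]
    push_cast
    rfl
  have mv : MemLp (fun x => conj (v x)) 2 mT := (Lp.memLp v).star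
  have e3 : ‖⟪toeplitz (star b) u, y⟫_ℂ - ((‖u‖ ^ 2 : ℝ) : ℂ)‖ ≤ ε * ‖v‖ ^ 2 := by
    rw [e1, ← e2, ← integral_sub (int_mul2 mv mby) (int_mul2 mv mu)]
    have iv := (memLp_two_iff_integrable_sq_norm (Lp.memLp v).1).1 (Lp.memLp v)
    have iu := (memLp_two_iff_integrable_sq_norm mu.1).1 mu
    have h2 : ∫ x, ε / 2 * (‖v x‖ ^ 2 + ‖(u : L2) x‖ ^ 2) ∂mT ≤ ε * ‖v‖ ^ 2 := by
      rw [integral_const_mul, integral_add iv iu, ← norm_sq_L2, ← norm_sq_L2]
      have : ‖(u : L2)‖ ^ 2 ≤ ‖v‖ ^ 2 := pow_le_pow_left₀ (norm_nonneg _) huv 2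
      nlinarith
    refine le_trans (norm_integral_le_of_norm_le ((iv.add iu).const_mul (ε / 2)) ?_) h2
    filter_upwards [happ, hv, my.coeFn_toLp] with x a1 a2 a3
    have a4 : (y : L2) x = conj c * (conj (BB l x) * (u : L2) x) := a3
    by_cases hx : x ∈ U
    · have a5 := BB_conj h0 h1 x
      have a6 : c * conj c = 1 := by rw [Complex.mul_conj', hc]; simp
      have e : conj (v x) * (b x * (y : L2) x) - conj (v x) * (u : L2) x
          = conj (v x) * ((b x - c * BB l x) * (conj c * (conj (BB l x) * (u : L2) x))) := by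
        rw [a4]
        linear_combination (conj (v x) * (u : L2) x * BB l x * conj (BB l x)) * a6
          + (conj (v x) * (u : L2) x) * a5
      rw [e]
      simp only [norm_mul, Complex.norm_conj, hc, norm_BB h0 h1, one_mul, Pi.add_apply]
      have a7 := a1 hx
      have a8 : ‖v x‖ * (‖b x - c * BB l x‖ * ‖(u : L2) x‖) ≤ ‖v x‖ * (ε * ‖(u : L2) x‖) := by
        gcongr
      nlinarith [mul_nonneg hε (sq_nonneg (‖v x‖ - ‖(u : L2) x‖))]
    · rw [a2 hx]
      simp only [map_zero, zero_mul, sub_self, norm_zero, Pi.add_apply]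
      positivity
  have e4 : ‖u‖ ^ 2 - ε * ‖v‖ ^ 2 ≤ RCLike.re ⟪toeplitz (star b) u, y⟫_ℂ := by
    have h2 := (Complex.abs_re_le_norm _).trans e3
    rw [Complex.sub_re, Complex.ofReal_re, abs_le] at h2
    show _ ≤ (⟪toeplitz (star b) u, y⟫_ℂ).re
    linarith [h2.1]
  have e5 := @norm_sub_sq ℂ _ _ _ _ (toeplitz (star b) u) y
  have e6 : 0 ≤ ‖toeplitz (star b) u - y‖ ^ 2 := sq_nonneg _
  have e7 := f2 u
  show ‖defectOp (toeplitz b) (toeplitz (star b)) u‖ ^ 2 ≤ _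
  linarith

lemma lower (b : Lp ℂ ∞ mT) (hb : ∀ᵐ x ∂mT, ‖b x‖ ≤ 1) (ab : An b) (h0 : 0 ≤ l)
    (h1 : l < 1) {c : ℂ} (hc : ‖c‖ = 1) {ε : ℝ} (hε : 0 ≤ ε)
    {U1 U2 : Set UnitAddCircle} (m1 : MeasurableSet U1) (m2 : MeasurableSet U2)
    (hd : Disjoint U1 U2) {L m M : ℝ} (hL : 0 < L) (hM : 0 < M) (hm : 0 ≤ m) (hmM : 2 * m ≤ M)
    (a1 : mT.real U1 = L) (a2 : mT.real U2 = L) (k1 : ∀ x ∈ U1, ‖kk l x‖ ≤ m)
    (k2 : ∀ x ∈ U2, M ≤ ‖kk l x‖)
    (happ : ∀ᵐ x ∂mT, x ∈ U1 ∪ U2 → ‖b x - c * BB l x‖ ≤ ε) (g : H2)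
    (hg : ∀ᵐ x ∂mT, x ∈ U1 ∪ U2 → ‖(defect b g : L2) x‖ = 1) : L ≤ 10 * ε * ‖g‖ ^ 2 := by
  obtain ⟨f1, -, -⟩ := sqrt_facts (toeplitz b) (toeplitz (star b)) (toeplitz_le b hb)
    (toeplitz_adj b)
  obtain ⟨v, v1, v2, v3, v4⟩ := test_fun (cont_kk h0 h1) (Lp.memLp (defect b g : L2)) m1 m2 hd
    hL hM hm hmM a1 a2 k1 k2 hg
  have h2 := defect_small b hb ab h0 h1 hc hε happ v v1 v2
  set u : H2 := H2.orthogonalProjectionOnto v with hu
  have h3 : ∫ x, conj (v x) * (defect b g : L2) x ∂mT = ⟪defect b u, g⟫_ℂ := by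
    rw [← inner_proj v (Lp.memLp _) ((mem_H2 _).1 (defect b g).2), ← inner_L2]
    exact (f1 u g).symm
  rw [h3] at v4
  have h4 := v4.trans (norm_inner_le_norm (𝕜 := ℂ) (defect b u) g)
  have h5 : (L / 2) ^ 2 ≤ (‖defect b u‖ * ‖g‖) ^ 2 := by gcongr
  have h6 : ‖defect b u‖ ^ 2 ≤ 2 * ε * (5 / 4 * L) := h2.trans (by gcongr)
  have h7 : ‖defect b u‖ ^ 2 * ‖g‖ ^ 2 ≤ 2 * ε * (5 / 4 * L) * ‖g‖ ^ 2 := by gcongr
  have h8 : L * L ≤ (10 * ε * ‖g‖ ^ 2) * L := by nlinarith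
  exact le_of_mul_le_mul_right h8 hL

lemma upper (b : Lp ℂ ∞ mT) (hb : ∀ᵐ x ∂mT, ‖b x‖ ≤ 1) (ab : An b) (h0 : 0 ≤ l)
    (h1 : l < 1) (hz : ∫ x, conj (kk l x) * b x ∂mT = 0) (C : ℝ) :
    ∃ f : H2, (∀ᵐ x ∂mT, (f : L2) x = C * kk l x) ∧
      normSq b f ≤ ENNReal.ofReal (C ^ 2 / (1 - l ^ 2)) := by
  obtain ⟨f1, -, f3⟩ := sqrt_facts (toeplitz b) (toeplitz (star b)) (toeplitz_le b hb)
    (toeplitz_adj b)
  have ck := cont_kk h0 h1
  have mk : MemLp (fun x => (C : ℂ) * kk l x) 2 mT := memLp_cont (by fun_prop) 2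
  have ak : An fun x => (C : ℂ) * kk l x := by
    intro n
    have e : ∀ x, fourier (n + 1 : ℤ) x * ((C : ℂ) * kk l x)
        = C * (fourier (n + 1 : ℤ) x * kk l x) := fun x => by ring
    simp_rw [e]
    rw [integral_const_mul, an_kk h0 h1 n, mul_zero]
  have hm : mk.toLp ∈ H2 := (mem_H2 _).2 (ak.congr mk.coeFn_toLp.symm)
  set f : H2 := ⟨mk.toLp, hm⟩ with hf
  have hfc : ∀ᵐ x ∂mT, (f : L2) x = C * kk l x := mk.coeFn_toLp
  have cB : Continuous fun x => conj (BB l x) := Complex.continuous_conj.comp (cont_BB h0 h1)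
  have hT : toeplitz (star b) f = 0 := by
    refine ext_inner_right ℂ fun h => ?_
    rw [inner_zero_left, toeplitz_adj, inner_toeplitz]
    have a1 := an_div h0 h1 (memLp_b b) ab hz
    have a2 := An.mul (memLp_mul cB (memLp_b b)) (Lp.memLp (h : L2)) a1 ((mem_H2 _).1 h.2)
    have m2 : MemLp (fun x => conj (BB l x) * b x * (h : L2) x) 2 mT := by
      simp_rw [mul_assoc]
      exact memLp_mul cB (memLp_b_mul b (Lp.memLp _))
    have a3 := int_kB h0 h1 m2 a2
    have e : (fun x => conj ((f : L2) x) * (b x * (h : L2) x)) =ᵐ[mT] fun x =>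
        C * (conj (kk l x) * (BB l x * (conj (BB l x) * b x * (h : L2) x))) := by
      filter_upwards [hfc] with x hx
      have a5 := BB_conj h0 h1 x
      rw [hx, map_mul, Complex.conj_ofReal]
      linear_combination (-(C * conj (kk l x) * b x * (h : L2) x)) * a5
    rw [integral_congr_ae e, integral_const_mul, a3, mul_zero]
  have hS : defect b f = f := f3 f hT
  have hl : 0 < 1 - l ^ 2 := by nlinarith
  have hn : ‖f‖ ^ 2 = C ^ 2 / (1 - l ^ 2) := by
    have e1 : ⟪(f : L2), (f : L2)⟫_ℂ = C ^ 2 * ∫ x, conj (kk l x) * kk l x ∂mT := by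
      rw [inner_L2, ← integral_const_mul]
      refine integral_congr_ae ?_
      filter_upwards [hfc] with x hx
      rw [hx, map_mul, Complex.conj_ofReal]
      ring
    have e2 := int_kk_sq h0 h1
    rw [inner_self_eq_norm_sq_to_K] at e1
    have e3 : ((‖f‖ ^ 2 * (1 - l ^ 2) : ℝ) : ℂ) = ((C ^ 2 : ℝ) : ℂ) := by
      push_cast
      have e4 : ((‖f‖ : ℝ) : ℂ) ^ 2 = C ^ 2 * ∫ x, conj (kk l x) * kk l x ∂mT := e1
      rw [e4]
      linear_combination (C : ℂ) ^ 2 * e2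
    rw [eq_div_iff hl.ne']
    exact_mod_cast e3
  refine ⟨f, hfc, ?_⟩
  have ho : f ∈ (LinearMap.ker (defect b).toLinearMap)ᗮ := by
    rw [Submodule.mem_orthogonal]
    intro x hx
    have hx' : defect b x = 0 := hx
    rw [← hS]
    refine (f1 x f).symm.trans ?_
    show ⟪defect b x, f⟫_ℂ = 0
    rw [hx', inner_zero_left]
  refine (iInf_le_of_le f (iInf_le_of_le ho (iInf_le_of_le hS le_rfl))).trans ?_
  rw [← hn, ← ofReal_norm, ENNReal.ofReal_pow (norm_nonneg _)]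

end Pool.Agent.H377Z.Cap
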