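import Mathlib

set_option autoImplicit false

open MeasureTheory
open scoped ENNReal

namespace Pool.Agent.H377Z.Cap

section Hilbert

variable {E : Type} [NormedAddCommGroup E] [InnerProductSpace ℂ E]

/-- The compression of `A` to the closed subspace `K`: apply `A`, then project onto `K`. -/
noncomputable def compress (K : Submodule ℂ E) [CompleteSpace K] (A : E →L[ℂ] E) : K →L[ℂ] K :=
  K.orthogonalProjectionOnto ∘L A ∘L K.subtypeL

/-- The operator `(I - T T')^{1/2}` (positive square root, continuous functional calculus). -/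
noncomputable def defectOp [CompleteSpace E] (T T' : E →L[ℂ] E) : E →L[ℂ] E :=
  CFC.sqrt (1 - T * T')

/-- The square of the range norm of `S`: `‖g‖²` if `f = S g` with `g` orthogonal to the kernel
of `S`, and `∞` if `f` is not in the range of `S`. -/
noncomputable def rangeNormSq (S : E →L[ℂ] E) (f : E) : ℝ≥0∞ :=
  ⨅ (g : E) (_ : g ∈ (LinearMap.ker S.toLinearMap)ᗮ) (_ : S g = f), ‖g‖ₑ ^ 2

/-- The infimum, over the `f` in `K` with property `p`, of the square of the range norm of
`(I - T T')^{1/2}`, where `T`, `T'` are the compressions of `A`, `A'` to `K`. -/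
noncomputable def minNormSq (K : Submodule ℂ E) [CompleteSpace K] (A A' : E →L[ℂ] E)
    (p : E → Prop) : ℝ≥0∞ :=
  ⨅ (f : K) (_ : p f), rangeNormSq (defectOp (compress K A) (compress K A')) f

/-- The operator `T a`, for a family `T` of operators on `E` that depends linearly on `a`. -/
noncomputable def opAt {A : Type} [NormedAddCommGroup A] [NormedSpace ℂ A]
    (T : A →L[ℂ] E →L[ℂ] E) (a : A) : E →L[ℂ] E :=
  T a

end Hilbert

/-- Multiplication by a bounded function, as an operator on `L²`. -/
noncomputable def mulOp {α : Type} [MeasurableSpace α] {μ : Measure α} (φ : Lp ℂ ∞ μ) :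
    Lp ℂ 2 μ →L[ℂ] Lp ℂ 2 μ :=
  opAt ((ContinuousLinearMap.mul ℂ ℂ).holderL μ ∞ 2 2) φ

/-- Normalised arc length on the circle `ℝ/ℤ` (the point `x` stands for `exp (2πix)`). -/
noncomputable abbrev mT : Measure UnitAddCircle := AddCircle.haarAddCircle

/-- The Hardy space, as the subspace of `L²` of the circle of the functions whose Fourier
coefficients of negative index vanish. -/
noncomputable def H2 : Submodule ℂ (Lp ℂ 2 mT) :=
  (Submodule.span ℂ (Set.range fun n : ℕ => fourierLp (T := 1) 2 (-(n + 1 : ℤ))))ᗮ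

instance : CompleteSpace H2 := by
  unfold H2
  infer_instance

/-- The infimum of the squared norm of `H(b)` over the functions of `H(b)` with property `p`. -/
noncomputable def minHb (b : Lp ℂ ∞ mT) (p : Lp ℂ 2 mT → Prop) : ℝ≥0∞ :=
  minNormSq H2 (mulOp b) (mulOp (star b)) p

/-- The first capacity. -/
noncomputable def cap1 (b : Lp ℂ ∞ mT) (E : Set UnitAddCircle) : ℝ≥0∞ :=
  minHb b fun f => ∃ U : Set UnitAddCircle, IsOpen U ∧ E ⊆ U ∧ ∀ᵐ x ∂mT, x ∈ U → 1 ≤ ‖f x‖

/-- The second capacity. -/
noncomputable def cap2 (b : Lp ℂ ∞ mT) (E : Set UnitAddCircle) : ℝ≥0∞ :=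
  minHb b fun f => ∃ U : Set UnitAddCircle, IsOpen U ∧ E ⊆ U ∧ ∀ᵐ x ∂mT, x ∈ U → ‖f x‖ = 1

end Pool.Agent.H377Z.Cap
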