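import Pool.Agent.H377Z.Cap.Defs

set_option autoImplicit false

open MeasureTheory Filter Topology
open scoped ENNReal InnerProductSpace ComplexConjugate

namespace Pool.Agent.H377Z.Cap

section Abs

variable {E : Type} [NormedAddCommGroup E] [InnerProductSpace ℂ E] [CompleteSpace E]

lemma sqrt_facts (T T' : E →L[ℂ] E) (hT : ∀ u, ‖T' u‖ ≤ ‖u‖)
    (hadj : ∀ u h, ⟪T' u, h⟫_ℂ = ⟪u, T h⟫_ℂ) :
    (∀ x y, ⟪defectOp T T' x, y⟫_ℂ = ⟪x, defectOp T T' y⟫_ℂ) ∧
    (∀ u, ‖defectOp T T' u‖ ^ 2 = ‖u‖ ^ 2 - ‖T' u‖ ^ 2) ∧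
    (∀ k, T' k = 0 → defectOp T T' k = k) := by
  have hform : ∀ u, ⟪u, (1 - T * T') u⟫_ℂ = ((‖u‖ ^ 2 - ‖T' u‖ ^ 2 : ℝ) : ℂ) := by
    intro u
    have : (1 - T * T') u = u - T (T' u) := rfl
    rw [this, inner_sub_right, ← hadj, inner_self_eq_norm_sq_to_K, inner_self_eq_norm_sq_to_K]
    push_cast
    rfl
  have hpos : (0 : E →L[ℂ] E) ≤ 1 - T * T' := by
    rw [ContinuousLinearMap.nonneg_iff_isPositive, ContinuousLinearMap.isPositive_iff_complex]
    intro x
    rw [← inner_conj_symm, hform, Complex.conj_ofReal]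
    refine ⟨rfl, ?_⟩
    have h1 := hT x
    have h2 : ‖T' x‖ ^ 2 ≤ ‖x‖ ^ 2 := by gcongr
    show 0 ≤ (((‖x‖ ^ 2 - ‖T' x‖ ^ 2 : ℝ) : ℂ)).re
    rw [Complex.ofReal_re]
    linarith
  set S : E →L[ℂ] E := defectOp T T' with hS
  have hS0 : (0 : E →L[ℂ] E) ≤ S := CFC.sqrt_nonneg _
  have hSS : S * S = 1 - T * T' := CFC.sqrt_mul_sqrt_self _ hpos
  have hP : S.IsPositive := (ContinuousLinearMap.nonneg_iff_isPositive S).1 hS0
  have hsym : ∀ x y, ⟪S x, y⟫_ℂ = ⟪x, S y⟫_ℂ := fun x y => hP.isSymmetric x y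
  refine ⟨hsym, fun u => ?_, fun k hk => ?_⟩
  · have h1 : ⟪S u, S u⟫_ℂ = ⟪u, (1 - T * T') u⟫_ℂ := by
      rw [hsym, ← hSS]; rfl
    have h2 := congrArg RCLike.re h1
    rw [hform, inner_self_eq_norm_sq] at h2
    exact h2.trans (Complex.ofReal_re _)
  · have h1 : S (S k) = k := by
      have : S (S k) = (S * S) k := rfl
      rw [this, hSS]
      show k - T (T' k) = k
      rw [hk, map_zero, sub_zero]
    set x := S k - k with hx
    have h2 : S x = -x := by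
      rw [hx, map_sub, h1]; abel
    have h3 := hP.re_inner_nonneg_left x
    rw [h2, inner_neg_left, map_neg, inner_self_eq_norm_sq] at h3
    have h4 : ‖x‖ = 0 := by nlinarith [norm_nonneg x]
    exact sub_eq_zero.1 (norm_eq_zero.1 h4)

end Abs

noncomputable abbrev L2 := Lp ℂ 2 mT

noncomputable def toeplitz (φ : Lp ℂ ∞ mT) : H2 →L[ℂ] H2 := compress H2 (mulOp φ)

noncomputable def defect (b : Lp ℂ ∞ mT) : H2 →L[ℂ] H2 :=
  defectOp (toeplitz b) (toeplitz (star b))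

noncomputable def normSq (b : Lp ℂ ∞ mT) (f : H2) : ℝ≥0∞ := rangeNormSq (defect b) f

lemma minHb_eq (b : Lp ℂ ∞ mT) (p : L2 → Prop) :
    minHb b p = ⨅ (f : H2) (_ : p f), normSq b f := rfl

/-- the negative Fourier coefficients vanish -/
def An (g : UnitAddCircle → ℂ) : Prop := ∀ n : ℕ, ∫ x, fourier (n + 1 : ℤ) x * g x ∂mT = 0

lemma inner_L2 (f g : L2) : ⟪f, g⟫_ℂ = ∫ x, conj (f x) * g x ∂mT := by
  rw [L2.inner_def]
  simp [mul_comm]

lemma inner_four (n : ℤ) (g : L2) :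
    ⟪fourierLp (T := 1) 2 n, g⟫_ℂ = ∫ x, fourier (-n) x * g x ∂mT := by
  rw [inner_L2]
  refine integral_congr_ae ?_
  filter_upwards [coeFn_fourierLp (T := 1) 2 n] with x hx
  rw [hx, fourier_neg]

lemma mem_H2 (f : L2) : f ∈ H2 ↔ An f := by
  unfold H2
  constructor
  · intro h n
    have := (Submodule.mem_orthogonal _ _).1 h _ (Submodule.subset_span ⟨n, rfl⟩)
    rwa [inner_four, neg_neg] at this
  · intro h
    rw [Submodule.mem_orthogonal]
    intro u hu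
    induction hu using Submodule.span_induction with
    | mem x hx =>
      obtain ⟨n, rfl⟩ := hx
      rw [inner_four, neg_neg]
      exact h n
    | zero => simp
    | add x y _ _ hx hy => rw [inner_add_left, hx, hy, add_zero]
    | smul c x _ hx => rw [inner_smul_left, hx, mul_zero]

lemma An.congr {f g : UnitAddCircle → ℂ} (h : An f) (e : f =ᵐ[mT] g) : An g := by
  intro n
  rw [← h n]
  refine integral_congr_ae ?_
  filter_upwards [e] with x hx
  rw [hx]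

lemma An.int {g : UnitAddCircle → ℂ} (h : An g) {m : ℤ} (hm : 0 < m) :
    ∫ x, fourier m x * g x ∂mT = 0 := by
  obtain ⟨n, rfl⟩ : ∃ n : ℕ, m = n + 1 := ⟨(m - 1).toNat, by omega⟩
  exact h n

lemma norm_four (n : ℤ) (x : UnitAddCircle) : ‖fourier n x‖ = 1 := by
  rw [fourier_apply]; exact Circle.norm_coe _

lemma memLp_four_mul {g : UnitAddCircle → ℂ} (hg : MemLp g 2 mT) (n : ℤ) :
    MemLp (fun x => fourier n x * g x) 2 mT := by
  refine hg.of_le ((fourier n).continuous.aestronglyMeasurable.mul hg.1) (ae_of_all _ fun x => ?_)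
  rw [norm_mul, norm_four, one_mul]

lemma An.mul {g h : UnitAddCircle → ℂ} (hg : MemLp g 2 mT) (hh : MemLp h 2 mT) (ag : An g)
    (ah : An h) : An fun x => g x * h x := by
  intro n
  have h1 : MemLp (fun x => conj (fourier (n + 1 : ℤ) x * g x)) 2 mT :=
    (memLp_four_mul hg _).star
  set p : L2 := h1.toLp with hp
  set q : L2 := hh.toLp with hq
  have e1 : ⟪p, q⟫_ℂ = ∫ x, fourier (n + 1 : ℤ) x * (g x * h x) ∂mT := by
    rw [inner_L2]
    refine integral_congr_ae ?_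
    filter_upwards [h1.coeFn_toLp, hh.coeFn_toLp] with x a1 a2
    rw [a1, a2, Complex.conj_conj, mul_assoc]
  rw [← e1]
  have h2 := (fourierBasis (T := 1)).hasSum_inner_mul_inner p q
  have h3 : (fun i : ℤ => ⟪p, fourierBasis (T := 1) i⟫_ℂ * ⟪fourierBasis (T := 1) i, q⟫_ℂ)
      = fun _ => 0 := by
    funext i
    rw [coe_fourierBasis]
    rcases lt_or_ge i 0 with hi | hi
    · rw [inner_four i q]
      have : ∫ x, fourier (-i) x * q x ∂mT = 0 :=
        (ah.congr hh.coeFn_toLp.symm).int (by omega)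
      rw [this, mul_zero]
    · have : ⟪p, fourierLp (T := 1) 2 i⟫_ℂ = 0 := by
        rw [inner_L2, ← ag.int (m := n + 1 + i) (by omega)]
        refine integral_congr_ae ?_
        filter_upwards [h1.coeFn_toLp, coeFn_fourierLp (T := 1) 2 i] with x a1 a2
        rw [a1, a2, Complex.conj_conj, fourier_add (m := n + 1) (n := i)]
        ring
      rw [this, zero_mul]
  rw [h3] at h2
  exact h2.unique hasSum_zero

/-- multiplication by a bounded function -/
noncomputable def mulL (φ : Lp ℂ ∞ mT) : L2 →L[ℂ] L2 := mulOp φ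

lemma mulL_coe (φ : Lp ℂ ∞ mT) (f : L2) : mulL φ f =ᵐ[mT] fun x => φ x * f x :=
  (ContinuousLinearMap.mul ℂ ℂ).coeFn_holder (r := 2) φ f

lemma inner_toeplitz (φ : Lp ℂ ∞ mT) (u h : H2) :
    ⟪u, toeplitz φ h⟫_ℂ = ∫ x, conj ((u : L2) x) * (φ x * (h : L2) x) ∂mT := by
  have : ⟪u, toeplitz φ h⟫_ℂ = ⟪(u : L2), mulL φ h⟫_ℂ :=
    Submodule.inner_orthogonalProjectionOnto_eq_of_mem_left u _
  rw [this, inner_L2]
  refine integral_congr_ae ?_
  filter_upwards [mulL_coe φ h] with x hx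
  rw [hx]

lemma toeplitz_adj (φ : Lp ℂ ∞ mT) (u h : H2) :
    ⟪toeplitz (star φ) u, h⟫_ℂ = ⟪u, toeplitz φ h⟫_ℂ := by
  rw [← inner_conj_symm (toeplitz (star φ) u) h, inner_toeplitz, inner_toeplitz, ← integral_conj]
  refine integral_congr_ae ?_
  filter_upwards [Lp.coeFn_star φ] with x hx
  rw [hx]
  simp only [Pi.star_apply, RCLike.star_def, map_mul, Complex.conj_conj]
  ring

lemma toeplitz_le (φ : Lp ℂ ∞ mT) (hφ : ∀ᵐ x ∂mT, ‖φ x‖ ≤ 1) (u : H2) :
    ‖toeplitz (star φ) u‖ ≤ ‖u‖ := by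
  have h1 : ‖toeplitz (star φ) u‖ ≤ ‖mulL (star φ) u‖ :=
    H2.norm_orthogonalProjectionOnto_apply_le _
  refine h1.trans ?_
  refine Lp.norm_le_norm_of_ae_le ?_
  filter_upwards [mulL_coe (star φ) u, Lp.coeFn_star φ, hφ] with x a1 a2 a3
  rw [a1, a2, norm_mul, Pi.star_apply, norm_star]
  exact mul_le_of_le_one_left (norm_nonneg _) a3

end Pool.Agent.H377Z.Cap
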