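import Pool.Agent.H377Z.Cap.Hil

set_option autoImplicit false

open MeasureTheory Filter Topology
open scoped ENNReal InnerProductSpace ComplexConjugate

namespace Pool.Agent.H377Z.Cap

/-- the point of the unit circle -/
noncomputable def zz (x : UnitAddCircle) : ℂ := fourier 1 x

lemma norm_zz (x : UnitAddCircle) : ‖zz x‖ = 1 := norm_four 1 x

@[fun_prop] lemma cont_zz : Continuous zz := (fourier 1).continuous

lemma zz_conj (x : UnitAddCircle) : zz x * conj (zz x) = 1 := by
  rw [Complex.mul_conj', norm_zz]; simp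

lemma four_succ (m : ℤ) (x : UnitAddCircle) : fourier (m + 1) x = fourier m x * zz x :=
  fourier_add

lemma int_four {m : ℤ} (hm : m ≠ 0) : ∫ x, fourier m x ∂mT = 0 := by
  have h := (orthonormal_iff_ite.1 (orthonormal_fourier (T := 1))) 0 m
  rw [if_neg hm.symm, inner_four] at h
  rw [← h]
  refine integral_congr_ae ?_
  filter_upwards [coeFn_fourierLp (T := 1) 2 m] with x hx
  rw [hx]; simp

lemma memLp_cont {g : UnitAddCircle → ℂ} (hg : Continuous g) (p : ℝ≥0∞) : MemLp g p mT := by
  obtain ⟨C, hC⟩ := (isCompact_univ.image hg.norm).bddAbove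
  exact MemLp.of_bound hg.aestronglyMeasurable C
    (ae_of_all _ fun x => hC ⟨x, Set.mem_univ _, rfl⟩)

lemma int_cont {g : UnitAddCircle → ℂ} (hg : Continuous g) : Integrable g mT :=
  memLp_one_iff_integrable.1 (memLp_cont hg 1)

lemma int_mul2 {g h : UnitAddCircle → ℂ} (hg : MemLp g 2 mT) (hh : MemLp h 2 mT) :
    Integrable (fun x => g x * h x) mT := hg.integrable_mul hh

lemma memLp_mul {g h : UnitAddCircle → ℂ} (hg : Continuous g) (hh : MemLp h 2 mT) :
    MemLp (fun x => g x * h x) 2 mT := by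
  have := MemLp.mul' (r := 2) hh (memLp_cont hg ∞)
  exact this

noncomputable def kk (l : ℝ) (x : UnitAddCircle) : ℂ := (1 - l * zz x)⁻¹

noncomputable def BB (l : ℝ) (x : UnitAddCircle) : ℂ := (l - zz x) * kk l x

variable {l : ℝ}

lemma den_ge (h0 : 0 ≤ l) (x : UnitAddCircle) : 1 - l ≤ ‖1 - l * zz x‖ := by
  have := norm_sub_norm_le (1 : ℂ) (l * zz x)
  rwa [norm_one, norm_mul, norm_zz, mul_one, Complex.norm_real, Real.norm_of_nonneg h0] at this

lemma den_ne (h0 : 0 ≤ l) (h1 : l < 1) (x : UnitAddCircle) : 1 - l * zz x ≠ 0 := by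
  intro h
  have := den_ge h0 x
  rw [h, norm_zero] at this
  linarith

lemma cont_kk (h0 : 0 ≤ l) (h1 : l < 1) : Continuous (kk l) := by
  unfold kk
  exact Continuous.inv₀ (by fun_prop) (den_ne h0 h1)

lemma cont_BB (h0 : 0 ≤ l) (h1 : l < 1) : Continuous (BB l) := by
  unfold BB
  have := cont_kk h0 h1
  fun_prop

lemma kk_rec (h0 : 0 ≤ l) (h1 : l < 1) (x : UnitAddCircle) : kk l x = 1 + l * zz x * kk l x := by
  have := den_ne h0 h1 x
  unfold kk
  field_simp
  ring

lemma den_sq (x : UnitAddCircle) :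
    ‖1 - l * zz x‖ ^ 2 = (1 - l) ^ 2 + l * ‖1 - zz x‖ ^ 2 := by
  have h := norm_zz x
  have h2 : (zz x).re ^ 2 + (zz x).im ^ 2 = 1 := by
    have := Complex.sq_norm (zz x)
    rw [h, Complex.normSq_apply] at this
    nlinarith
  rw [Complex.sq_norm, Complex.sq_norm, Complex.normSq_apply, Complex.normSq_apply]
  simp
  linear_combination (l ^ 2 - l) * h2

lemma norm_BB (h0 : 0 ≤ l) (h1 : l < 1) (x : UnitAddCircle) : ‖BB l x‖ = 1 := by
  have e : (l : ℂ) - zz x = -zz x * conj (1 - l * zz x) := by
    have := zz_conj x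
    simp only [map_sub, map_one, map_mul, Complex.conj_ofReal]
    linear_combination (-(l : ℂ)) * this
  unfold BB kk
  rw [norm_mul, e, norm_mul, norm_neg, norm_zz, one_mul, Complex.norm_conj, norm_inv,
    mul_inv_cancel₀ (norm_ne_zero_iff.2 (den_ne h0 h1 x))]

lemma BB_conj (h0 : 0 ≤ l) (h1 : l < 1) (x : UnitAddCircle) : BB l x * conj (BB l x) = 1 := by
  rw [Complex.mul_conj', norm_BB h0 h1]; simp

lemma an_kk (h0 : 0 ≤ l) (h1 : l < 1) : An (kk l) := by
  have hc := cont_kk h0 h1
  set c : ℕ → ℂ := fun n => ∫ x, fourier (n + 1 : ℤ) x * kk l x ∂mT with hcdef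
  have hrec : ∀ n, c n = l * c (n + 1) := by
    intro n
    have e : ∀ x, fourier (n + 1 : ℤ) x * kk l x
        = fourier (n + 1 : ℤ) x + l * (fourier (((n + 1 : ℕ) : ℤ) + 1) x * kk l x) := by
      intro x
      rw [four_succ ((n + 1 : ℕ) : ℤ)]
      push_cast
      linear_combination (fourier (n + 1 : ℤ) x) * kk_rec h0 h1 x
    simp only [hcdef]
    simp_rw [e]
    rw [integral_add (int_cont (fourier _).continuous) (int_cont (by fun_prop)),
      int_four (by omega), zero_add, integral_const_mul]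
  have hb : ∀ n, ‖c n‖ ≤ (1 - l)⁻¹ := by
    intro n
    have := norm_integral_le_of_norm_le_const (μ := mT)
      (f := fun x => fourier (n + 1 : ℤ) x * kk l x) (C := (1 - l)⁻¹) (ae_of_all _ fun x => by
        rw [norm_mul, norm_four, one_mul, kk, norm_inv]
        exact inv_anti₀ (by linarith) (den_ge h0 x))
    rwa [probReal_univ, mul_one] at this
  have hj : ∀ j n, ‖c n‖ ≤ l ^ j * (1 - l)⁻¹ := by
    intro j
    induction j with
    | zero => intro n; simpa using hb n
    | succ j ih =>
      intro n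
      rw [hrec, norm_mul, Complex.norm_real, Real.norm_of_nonneg h0, pow_succ', mul_assoc]
      exact mul_le_mul_of_nonneg_left (ih _) h0
  intro n
  have ht : Tendsto (fun j : ℕ => l ^ j * (1 - l)⁻¹) atTop (𝓝 (0 * (1 - l)⁻¹)) :=
    (tendsto_pow_atTop_nhds_zero_of_lt_one h0 h1).mul_const _
  rw [zero_mul] at ht
  exact norm_le_zero_iff.1 (ge_of_tendsto' ht fun j => hj j n)

lemma int_kk (h0 : 0 ≤ l) (h1 : l < 1) : ∫ x, kk l x ∂mT = 1 := by
  have hc := cont_kk h0 h1
  have e : ∀ x, kk l x = 1 + l * (fourier 1 x * kk l x) := fun x => by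
    rw [← mul_assoc]; exact kk_rec h0 h1 x
  rw [integral_congr_ae (ae_of_all _ e), integral_add (integrable_const _)
    (int_cont (by fun_prop)), integral_const_mul, (an_kk h0 h1).int one_pos]
  simp

lemma int_kk_sq (h0 : 0 ≤ l) (h1 : l < 1) :
    (1 - l ^ 2) * ∫ x, conj (kk l x) * kk l x ∂mT = 1 := by
  have hc := cont_kk h0 h1
  have e : ∀ x, (1 - (l : ℂ) ^ 2) * (conj (kk l x) * kk l x) = kk l x + conj (kk l x) - 1 := by
    intro x
    have a1 := kk_rec h0 h1 x
    have a2 : conj (kk l x) = 1 + l * conj (zz x) * conj (kk l x) := by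
      conv_lhs => rw [a1]
      simp
    have a3 := zz_conj x
    linear_combination (conj (kk l x) - 1) * a1 + (l * zz x * kk l x) * a2
      + ((l : ℂ) ^ 2 * conj (kk l x) * kk l x) * a3
  have hc' : Continuous fun x => conj (kk l x) := Complex.continuous_conj.comp hc
  rw [← integral_const_mul, integral_congr_ae (ae_of_all _ e),
    integral_sub (int_cont (by fun_prop)) (integrable_const _),
    integral_add (int_cont hc) (int_cont hc'), integral_conj, int_kk h0 h1]
  simp

lemma an_div (h0 : 0 ≤ l) (h1 : l < 1) {u : UnitAddCircle → ℂ} (hu : MemLp u 2 mT) (au : An u)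
    (h : ∫ x, conj (kk l x) * u x ∂mT = 0) : An fun x => conj (BB l x) * u x := by
  have hc := cont_kk h0 h1
  have hc' : Continuous fun x => conj (kk l x) := Complex.continuous_conj.comp hc
  have hi : ∀ m : ℤ, Integrable (fun x => fourier m x * (conj (kk l x) * u x)) mT := fun m =>
    int_mul2 (memLp_cont (fourier m).continuous 2) (memLp_mul hc' hu)
  have hd : ∀ n : ℕ, ∫ x, fourier (n : ℤ) x * (conj (kk l x) * u x) ∂mT = 0 := by
    intro n
    induction n with
    | zero => simpa using h
    | succ n ih =>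
      have e : ∀ x, fourier ((n + 1 : ℕ) : ℤ) x * (conj (kk l x) * u x)
          = fourier (n + 1 : ℤ) x * u x + l * (fourier (n : ℤ) x * (conj (kk l x) * u x)) := by
        intro x
        have a1 := kk_rec h0 h1 x
        have a2 : conj (kk l x) = 1 + l * conj (zz x) * conj (kk l x) := by
          conv_lhs => rw [a1]
          simp
        have a3 := zz_conj x
        push_cast
        rw [four_succ]
        linear_combination (fourier (n : ℤ) x * zz x * u x) * a2
          + (l * fourier (n : ℤ) x * conj (kk l x) * u x) * a3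
      simp_rw [e]
      rw [integral_add (int_mul2 (memLp_cont (fourier _).continuous 2) hu) ((hi _).const_mul _),
        au n, integral_const_mul, ih]
      simp
  intro n
  have e : ∀ x, fourier (n + 1 : ℤ) x * (conj (BB l x) * u x)
      = l * (fourier ((n + 1 : ℕ) : ℤ) x * (conj (kk l x) * u x))
        - fourier (n : ℤ) x * (conj (kk l x) * u x) := by
    intro x
    have a3 := zz_conj x
    push_cast
    rw [four_succ, BB]
    simp only [map_mul, map_sub, Complex.conj_ofReal]
    linear_combination (-(fourier (n : ℤ) x * conj (kk l x) * u x)) * a3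
  simp_rw [e]
  rw [integral_sub ((hi _).const_mul _) (hi _), integral_const_mul, hd, hd]
  simp

lemma int_kB (h0 : 0 ≤ l) (h1 : l < 1) {y : UnitAddCircle → ℂ} (hy : MemLp y 2 mT) (ay : An y) :
    ∫ x, conj (kk l x) * (BB l x * y x) ∂mT = 0 := by
  have h := (An.mul (memLp_cont (cont_kk h0 h1) 2) hy (an_kk h0 h1) ay).int one_pos
  have e : ∀ x, conj (kk l x) * (BB l x * y x) = -(fourier 1 x * (kk l x * y x)) := by
    intro x
    have a1 := kk_rec h0 h1 x
    have a2 : conj (kk l x) = 1 + l * conj (zz x) * conj (kk l x) := by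
      conv_lhs => rw [a1]
      simp
    have a3 := zz_conj x
    show _ = -(zz x * (kk l x * y x))
    rw [BB]
    linear_combination (-(zz x * kk l x * y x)) * a2 - (l * conj (kk l x) * kk l x * y x) * a3
  simp_rw [e]
  rw [integral_neg, h, neg_zero]

lemma an_BB (h0 : 0 ≤ l) (h1 : l < 1) : An (BB l) := by
  have h : An fun x => (l : ℂ) - zz x := by
    intro n
    have e : ∀ x, fourier (n + 1 : ℤ) x * ((l : ℂ) - zz x)
        = l * fourier (n + 1 : ℤ) x - fourier (n + 1 + 1 : ℤ) x := by
      intro x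
      rw [four_succ (n + 1)]; ring
    simp_rw [e]
    rw [integral_sub (int_cont (by fun_prop)) (int_cont (fourier _).continuous),
      integral_const_mul, int_four (by omega), int_four (by omega)]
    simp
  exact An.mul (memLp_cont (by fun_prop) 2) (memLp_cont (cont_kk h0 h1) 2) h (an_kk h0 h1)

end Pool.Agent.H377Z.Cap
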