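import Pool.Agent.H377Z.Cap.Bound

set_option autoImplicit false

open MeasureTheory Filter Topology Set Metric
open scoped ENNReal NNReal InnerProductSpace ComplexConjugate Real

namespace Pool.Agent.H377Z.Cap

lemma mT_eq : mT = (volume : Measure UnitAddCircle) := by
  have h := AddCircle.volume_eq_smul_haarAddCircle (T := 1)
  rw [h]; simp

lemma exists_rep (x : UnitAddCircle) : ∃ t : ℝ, |t| ≤ 1 / 2 ∧ x = t ∧ ‖x‖ = |t| := by
  obtain ⟨s, rfl⟩ := QuotientAddGroup.mk_surjective x
  refine ⟨s - round s, abs_sub_round s, ?_, UnitAddCircle.norm_eq⟩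
  rw [AddCircle.coe_sub]
  have : ((round s : ℝ) : UnitAddCircle) = 0 := by
    rw [AddCircle.coe_eq_zero_iff]
    exact ⟨round s, by simp⟩
  rw [this, sub_zero]

lemma dist_bounds (x : UnitAddCircle) : 4 * ‖x‖ ≤ ‖1 - zz x‖ ∧ ‖1 - zz x‖ ≤ 7 * ‖x‖ := by
  obtain ⟨t, ht, rfl, hn⟩ := exists_rep x
  rw [hn]
  have e : zz (t : UnitAddCircle) = Complex.exp (Complex.I * (2 * π * t : ℝ)) := by
    rw [zz, fourier_coe_apply]
    congr 1
    push_cast
    ring
  rw [norm_sub_rev, e, Complex.norm_exp_I_mul_ofReal_sub_one, show 2 * π * t / 2 = π * t by ring,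
    Real.norm_eq_abs, abs_mul, abs_two]
  have hp := Real.pi_pos
  have h1 : |Real.sin (π * t)| = Real.sin (π * |t|) := by
    have h0 : 0 ≤ Real.sin (π * |t|) :=
      Real.sin_nonneg_of_nonneg_of_le_pi (by positivity) (by nlinarith [abs_nonneg t])
    rcases abs_cases t with h | h
    · rw [h.1] at h0 ⊢; exact abs_of_nonneg h0
    · rw [h.1] at h0 ⊢
      rw [mul_neg, Real.sin_neg] at h0 ⊢
      exact abs_of_nonpos (by linarith)
  rw [h1]
  have h2 := Real.mul_le_sin (x := π * |t|) (by positivity) (by nlinarith [abs_nonneg t])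
  have h3 := Real.sin_le (x := π * |t|) (by positivity)
  have h4 : 2 / π * (π * |t|) = 2 * |t| := by field_simp
  have h5 := Real.pi_lt_d2
  constructor
  · linarith
  · nlinarith [abs_nonneg t]

lemma le_of_sq_le_sq {a b : ℝ} (h : a ^ 2 ≤ b ^ 2) (hb : 0 ≤ b) : a ≤ b :=
  (abs_le_of_sq_le_sq' h hb).2

lemma meas_ball {r : ℝ} (h0 : 0 ≤ r) (h1 : r ≤ 1 / 2) :
    mT.real (closedBall (0 : UnitAddCircle) r) = 2 * r := by
  rw [mT_eq, Measure.real, AddCircle.volume_closedBall, min_eq_right (by linarith),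
    ENNReal.toReal_ofReal (by linarith)]

lemma meas_ann {r s : ℝ} (h0 : 0 ≤ r) (h : r ≤ s) (h1 : s ≤ 1 / 2) :
    mT.real (closedBall (0 : UnitAddCircle) s \ closedBall 0 r) = 2 * (s - r) := by
  rw [measureReal_sdiff (closedBall_subset_closedBall h) measurableSet_closedBall,
    meas_ball (h0.trans h) h1, meas_ball h0 (h.trans h1)]
  ring

lemma ae_ne : ∀ᵐ x ∂mT, x ≠ 0 := by
  have h : mT (closedBall (0 : UnitAddCircle) 0) = 0 := by
    rw [mT_eq, AddCircle.volume_closedBall]; simp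
  rw [closedBall_zero] at h
  rw [ae_iff]
  simpa using h

noncomputable def dl : ℕ → ℝ
  | 0 => 1 / 2
  | n + 1 => dl n ^ 2

lemma dl_pos (n : ℕ) : 0 < dl n := by
  induction n with
  | zero => norm_num [dl]
  | succ n ih => exact pow_pos ih 2

lemma dl_le (n : ℕ) : dl n ≤ 1 / 2 := by
  induction n with
  | zero => norm_num [dl]
  | succ n ih => have := dl_pos n; rw [dl]; nlinarith

lemma dl_succ (n : ℕ) : dl (n + 1) ≤ dl n / 2 := by
  have := dl_pos n; have := dl_le n; rw [dl]; nlinarith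

lemma dl_anti : Antitone dl := antitone_nat_of_succ_le fun n => by
  have := dl_succ n; have := dl_pos n; linarith

lemma dl_geo (n : ℕ) : dl n ≤ (1 / 2) ^ n := by
  induction n with
  | zero => norm_num [dl]
  | succ n ih => have := dl_succ n; rw [pow_succ]; linarith

noncomputable def lam (n : ℕ) : ℝ := 1 - dl n

lemma lam0 (n : ℕ) : 0 ≤ lam n := by have := dl_le n; unfold lam; linarith
lemma lam1 (n : ℕ) : lam n < 1 := by have := dl_pos n; unfold lam; linarith

noncomputable def PP : ℕ → UnitAddCircle → ℂ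
  | 0 => fun x => (1 + zz x) / 2
  | n + 1 => fun x => PP n x * BB (lam n) x

lemma cont_PP (n : ℕ) : Continuous (PP n) := by
  induction n with
  | zero => unfold PP; fun_prop
  | succ n ih => exact ih.mul (cont_BB (lam0 n) (lam1 n))

lemma an_PP (n : ℕ) : An (PP n) := by
  induction n with
  | zero =>
    intro n
    have e : ∀ x, fourier (n + 1 : ℤ) x * PP 0 x
        = (fourier (n + 1 : ℤ) x + fourier (n + 1 + 1 : ℤ) x) / 2 := by
      intro x
      rw [four_succ (n + 1), PP]; ring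
    simp_rw [e]
    rw [integral_div, integral_add (int_cont (fourier _).continuous)
      (int_cont (fourier _).continuous), int_four (by omega), int_four (by omega)]
    simp
  | succ n ih =>
    exact An.mul (memLp_cont (cont_PP n) 2) (memLp_cont (cont_BB (lam0 n) (lam1 n)) 2) ih
      (an_BB (lam0 n) (lam1 n))

lemma norm_PP (n : ℕ) (x : UnitAddCircle) : ‖PP n x‖ = ‖PP 0 x‖ := by
  induction n with
  | zero => rfl
  | succ n ih =>
    rw [show PP (n + 1) x = PP n x * BB (lam n) x from rfl, norm_mul, ih,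
      norm_BB (lam0 n) (lam1 n), mul_one]

lemma norm_P0_sq (x : UnitAddCircle) : ‖PP 0 x‖ ^ 2 = 1 - ‖1 - zz x‖ ^ 2 / 4 := by
  have h := parallelogram_law_with_norm ℂ (1 : ℂ) (zz x)
  rw [PP, norm_div, div_pow, Complex.norm_two]
  rw [norm_one, norm_zz] at h
  linarith

lemma norm_PP_le (n : ℕ) (x : UnitAddCircle) : ‖PP n x‖ ≤ 1 := by
  rw [norm_PP]
  have := norm_P0_sq x
  nlinarith [norm_nonneg (PP 0 x), sq_nonneg ‖1 - zz x‖]

lemma PP_zero (n N : ℕ) (h : n < N) : ∫ x, conj (kk (lam n) x) * PP N x ∂mT = 0 := by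
  have key : ∃ y : UnitAddCircle → ℂ, Continuous y ∧ An y ∧ ∀ x, PP N x = BB (lam n) x * y x := by
    induction N, h using Nat.le_induction with
    | base => exact ⟨PP n, cont_PP n, an_PP n, fun x => mul_comm _ _⟩
    | succ N _ ih =>
      obtain ⟨y, c, a, e⟩ := ih
      refine ⟨fun x => y x * BB (lam N) x, c.mul (cont_BB (lam0 N) (lam1 N)),
        An.mul (memLp_cont c 2) (memLp_cont (cont_BB (lam0 N) (lam1 N)) 2) a
          (an_BB (lam0 N) (lam1 N)), fun x => ?_⟩
      rw [show PP (N + 1) x = PP N x * BB (lam N) x from rfl, e, mul_assoc]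
  obtain ⟨y, c, a, e⟩ := key
  simp_rw [e]
  exact int_kB (lam0 n) (lam1 n) (memLp_cont c 2) a

lemma BB_sub (n : ℕ) {x : UnitAddCircle} (hx : 0 < ‖1 - zz x‖) :
    ‖BB (lam n) x - 1‖ ≤ 4 * dl n / ‖1 - zz x‖ := by
  have hd := den_ne (lam0 n) (lam1 n) x
  have e : BB (lam n) x - 1 = -(dl n : ℂ) * (1 + zz x) / (1 - lam n * zz x) := by
    rw [BB, kk]
    field_simp
    rw [lam]
    push_cast
    ring
  have h1 : ‖1 + zz x‖ ≤ 2 := (norm_add_le _ _).trans (by rw [norm_one, norm_zz]; norm_num)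
  have h2 : ‖1 - zz x‖ / 2 ≤ ‖1 - lam n * zz x‖ := by
    refine le_of_sq_le_sq ?_ (norm_nonneg _)
    rw [den_sq]
    have := dl_le n
    have h3 : 1 / 2 ≤ lam n := by unfold lam; linarith
    nlinarith [sq_nonneg (1 - lam n), sq_nonneg ‖1 - zz x‖]
  have hp := dl_pos n
  rw [e, norm_div, norm_mul, norm_neg, Complex.norm_real, Real.norm_of_nonneg hp.le]
  calc _ ≤ dl n * 2 / (‖1 - zz x‖ / 2) := by gcongr
    _ = _ := by field_simp; norm_num

lemma BB_add (n : ℕ) (x : UnitAddCircle) : ‖BB (lam n) x + 1‖ ≤ 2 * ‖1 - zz x‖ / dl n := by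
  have hd := den_ne (lam0 n) (lam1 n) x
  have e : BB (lam n) x + 1 = ((lam n + 1 : ℝ) : ℂ) * (1 - zz x) / (1 - lam n * zz x) := by
    rw [BB, kk]
    field_simp
    push_cast
    ring
  have h1 := den_ge (lam0 n) x
  have h2 : 1 - lam n = dl n := by unfold lam; ring
  rw [h2] at h1
  have hp := dl_pos n
  have h3 := lam0 n
  have h4 := lam1 n
  rw [e, norm_div, norm_mul, Complex.norm_real, Real.norm_of_nonneg (by linarith)]
  gcongr
  linarith

lemma PP_head (n : ℕ) (x : UnitAddCircle) (N : ℕ) (h : N ≤ n + 1) :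
    ‖PP N x - (-1) ^ N‖ ≤ ‖1 - zz x‖ / 2 + N * (2 * ‖1 - zz x‖ / dl n) := by
  induction N with
  | zero =>
    have e : PP 0 x - (-1) ^ 0 = -(1 - zz x) / 2 := by rw [PP]; ring
    rw [e, norm_div, norm_neg, Complex.norm_two]
    simp
  | succ N ih =>
    have e : PP (N + 1) x - (-1) ^ (N + 1)
        = PP N x * (BB (lam N) x + 1) - (PP N x - (-1) ^ N) := by rw [PP]; ring
    rw [e]
    refine (norm_sub_le _ _).trans ?_
    have h1 : ‖PP N x * (BB (lam N) x + 1)‖ ≤ 2 * ‖1 - zz x‖ / dl n := by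
      rw [norm_mul]
      have h2 := dl_anti (show N ≤ n by omega)
      have h3 := dl_pos n
      calc _ ≤ 1 * (2 * ‖1 - zz x‖ / dl N) := by
            gcongr
            · exact norm_PP_le N x
            · exact BB_add N x
        _ ≤ _ := by rw [one_mul]; gcongr
    have h2 := ih (by omega)
    push_cast
    linarith

lemma PP_tail (n : ℕ) {x : UnitAddCircle} (hx : 0 < ‖1 - zz x‖) (N : ℕ) (h : n ≤ N) :
    ‖PP N x - PP n x‖ ≤ 8 * (dl n - dl N) / ‖1 - zz x‖ := by
  induction N, h using Nat.le_induction with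
  | base => simp
  | succ N _ ih =>
    have e : PP (N + 1) x - PP n x = PP N x * (BB (lam N) x - 1) + (PP N x - PP n x) := by
      rw [PP]; ring
    rw [e]
    refine (norm_add_le _ _).trans ?_
    have h1 : ‖PP N x * (BB (lam N) x - 1)‖ ≤ 4 * dl N / ‖1 - zz x‖ := by
      rw [norm_mul]
      calc _ ≤ 1 * (4 * dl N / ‖1 - zz x‖) := by
            gcongr
            · exact norm_PP_le N x
            · exact BB_sub N hx
        _ = _ := one_mul _
    refine (add_le_add h1 ih).trans ?_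
    rw [← add_div]
    have := dl_succ N
    gcongr
    linarith

lemma pos_of_ne {x : UnitAddCircle} (hx : x ≠ 0) : 0 < ‖1 - zz x‖ := by
  have := (dist_bounds x).1
  have h2 := norm_pos_iff.2 hx
  linarith

noncomputable def bf (x : UnitAddCircle) : ℂ := limUnder atTop fun n => PP n x

lemma tendsto_bf {x : UnitAddCircle} (hx : x ≠ 0) : Tendsto (fun n => PP n x) atTop (𝓝 (bf x)) := by
  have hp := pos_of_ne hx
  refine CauchySeq.tendsto_limUnder (cauchySeq_of_le_geometric (1 / 2) (8 / ‖1 - zz x‖)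
    (by norm_num) fun n => ?_)
  rw [dist_comm, dist_eq_norm]
  refine (PP_tail n hp (n + 1) (by omega)).trans ?_
  have h1 := dl_geo n
  have h2 := dl_pos (n + 1)
  rw [div_mul_eq_mul_div]
  gcongr
  linarith

lemma ae_tendsto : ∀ᵐ x ∂mT, Tendsto (fun n => PP n x) atTop (𝓝 (bf x)) := by
  filter_upwards [ae_ne] with x hx using tendsto_bf hx

lemma norm_bf {x : UnitAddCircle} (hx : x ≠ 0) : ‖bf x‖ = ‖PP 0 x‖ := by
  have h := (tendsto_bf hx).norm
  simp_rw [norm_PP] at h
  exact tendsto_nhds_unique h tendsto_const_nhds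

lemma meas_bf : AEStronglyMeasurable bf mT :=
  aestronglyMeasurable_of_tendsto_ae atTop (fun n => (cont_PP n).aestronglyMeasurable) ae_tendsto

lemma memLp_bf : MemLp bf ∞ mT := by
  refine memLp_top_of_bound meas_bf 1 ?_
  filter_upwards [ae_ne] with x hx
  rw [norm_bf hx]
  exact norm_PP_le 0 x

lemma int_lim {g : UnitAddCircle → ℂ} (hg : Continuous g)
    (h : ∀ᶠ N in atTop, ∫ x, g x * PP N x ∂mT = 0) : ∫ x, g x * bf x ∂mT = 0 := by
  have h1 : Tendsto (fun N => ∫ x, g x * PP N x ∂mT) atTop (𝓝 (∫ x, g x * bf x ∂mT)) := by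
    refine tendsto_integral_of_dominated_convergence (fun x => ‖g x‖)
      (fun N => (hg.mul (cont_PP N)).aestronglyMeasurable) (int_cont hg).norm
      (fun N => ae_of_all _ fun x => ?_) ?_
    · rw [norm_mul]
      exact mul_le_of_le_one_right (norm_nonneg _) (norm_PP_le N x)
    · filter_upwards [ae_tendsto] with x hx using hx.const_mul _
  exact tendsto_nhds_unique h1 (tendsto_const_nhds.congr' (h.mono fun N hN => hN.symm))

lemma bf_approx (n : ℕ) {x : UnitAddCircle} (h1 : dl (n + 1) ≤ ‖x‖) (h2 : ‖x‖ ≤ 10 * dl (n + 1)) :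
    ‖bf x - (-1) ^ (n + 1) * BB (lam (n + 1)) x‖ ≤ 177 * (n + 1) * dl n := by
  have hp := dl_pos (n + 1)
  have hp0 := dl_pos n
  have hx : x ≠ 0 := norm_pos_iff.1 (by linarith)
  obtain ⟨d1, d2⟩ := dist_bounds x
  have hd := pos_of_ne hx
  have a1 : ‖bf x - PP (n + 2) x‖ ≤ 8 * dl (n + 2) / ‖1 - zz x‖ := by
    refine le_of_tendsto ((tendsto_bf hx).sub_const _).norm ?_
    filter_upwards [eventually_ge_atTop (n + 2)] with N hN
    refine (PP_tail (n + 2) hd N hN).trans ?_
    have := dl_pos N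
    gcongr
    linarith
  have a2 : 8 * dl (n + 2) / ‖1 - zz x‖ ≤ 2 * dl (n + 1) := by
    rw [div_le_iff₀ hd, show dl (n + 2) = dl (n + 1) ^ 2 from rfl]
    nlinarith
  have a3 : ‖PP (n + 2) x - (-1) ^ (n + 1) * BB (lam (n + 1)) x‖
      = ‖PP (n + 1) x - (-1) ^ (n + 1)‖ := by
    rw [show PP (n + 2) x = PP (n + 1) x * BB (lam (n + 1)) x from rfl, ← sub_mul, norm_mul,
      norm_BB (lam0 _) (lam1 _), mul_one]
  have a4 := PP_head n x (n + 1) le_rfl
  have a5 : 2 * ‖1 - zz x‖ / dl n ≤ 140 * dl n := by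
    rw [div_le_iff₀ hp0]
    have : dl (n + 1) = dl n ^ 2 := rfl
    nlinarith
  have a6 := norm_sub_le_norm_sub_add_norm_sub (bf x) (PP (n + 2) x)
    ((-1) ^ (n + 1) * BB (lam (n + 1)) x)
  have a7 : ((n + 1 : ℕ) : ℝ) * (2 * ‖1 - zz x‖ / dl n) ≤ (n + 1) * (140 * dl n) := by
    push_cast
    gcongr
  have a8 := dl_succ n
  have a9 : dl n ≤ (n + 1) * dl n := le_mul_of_one_le_left hp0.le (by linarith [n.cast_nonneg (α := ℝ)])
  linarith

noncomputable def bL : Lp ℂ ∞ mT := memLp_bf.toLp bf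

lemma bL_coe : bL =ᵐ[mT] bf := memLp_bf.coeFn_toLp

lemma bL_norm : ∀ᵐ x ∂mT, ‖bL x‖ = ‖PP 0 x‖ := by
  filter_upwards [bL_coe, ae_ne] with x h1 h2
  rw [h1, norm_bf h2]

lemma bL_le : ∀ᵐ x ∂mT, ‖bL x‖ ≤ 1 := by
  filter_upwards [bL_norm] with x h
  rw [h]; exact norm_PP_le 0 x

lemma an_bL : An bL := by
  refine An.congr (fun n => ?_) bL_coe.symm
  exact int_lim (fourier _).continuous (Eventually.of_forall fun N => an_PP N n)

lemma norm_bL : ‖bL‖ = 1 := by
  apply le_antisymm
  · have := Lp.norm_le_of_ae_bound (f := bL) zero_le_one bL_le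
    simpa using this
  · have h1 : ∀ᵐ x ∂mT, ‖PP 0 x‖ ≤ ‖bL‖ := by
      have h := ae_le_lpNorm_exponent_top (Lp.memLp bL)
      filter_upwards [bL_norm, h] with x a1 a2
      rw [← a1, Lp.norm_def, toReal_eLpNorm (Lp.memLp bL).1]
      exact a2
    have h2 : IsClosed {x | ‖PP 0 x‖ ≤ ‖bL‖} := isClosed_le (cont_PP 0).norm continuous_const
    have h3 : {x | ‖PP 0 x‖ ≤ ‖bL‖} = univ := by
      rw [← h2.ae_eq_univ_iff_eq (μ := mT), ae_eq_univ]
      exact h1
    have h4 : (0 : UnitAddCircle) ∈ {x | ‖PP 0 x‖ ≤ ‖bL‖} := h3 ▸ mem_univ _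
    have h5 : PP 0 0 = 1 := by simp [PP, zz]
    simpa [h5] using h4

lemma one_sub_ge (x : UnitAddCircle) : 2 * ‖x‖ ^ 2 ≤ 1 - ‖PP 0 x‖ := by
  have h1 := norm_P0_sq x
  have h2 := norm_PP_le 0 x
  have h3 := (dist_bounds x).1
  have h4 : (4 * ‖x‖) ^ 2 ≤ ‖1 - zz x‖ ^ 2 := by gcongr
  nlinarith [norm_nonneg (PP 0 x)]

lemma bL_lt : ∀ᵐ x ∂mT, ‖bL x‖ < 1 := by
  filter_upwards [bL_norm, ae_ne] with x h1 h2
  have := one_sub_ge x
  have h3 := norm_pos_iff.2 h2
  rw [h1]
  nlinarith

lemma int_log_norm : Integrable (fun x : UnitAddCircle => Real.log ‖x‖) mT := by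
  rw [mT_eq]
  have hm : AEStronglyMeasurable (fun x : UnitAddCircle => Real.log ‖x‖) volume :=
    (Real.measurable_log.comp measurable_norm).aestronglyMeasurable
  rw [← (UnitAddCircle.measurePreserving_mk (-(1 / 2))).integrable_comp hm]
  have h1 : IntervalIntegrable Real.log volume (-(1 / 2)) (-(1 / 2) + 1) :=
    intervalIntegral.intervalIntegrable_log'
  have h2 := (intervalIntegrable_iff_integrableOn_Ioc_of_le (by norm_num)).1 h1
  refine Integrable.congr h2 ?_
  filter_upwards [ae_restrict_mem measurableSet_Ioc] with t ht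
  have h3 : ‖(t : UnitAddCircle)‖ = |t| := by
    rw [AddCircle.norm_coe_eq_abs_iff _ one_ne_zero, abs_le]
    constructor <;> simp <;> linarith [ht.1, ht.2]
  simp [h3]

lemma int_log : Integrable (fun x => Real.log (1 - ‖bL x‖)) mT := by
  have hm : AEStronglyMeasurable (fun x => Real.log (1 - ‖bL x‖)) mT :=
    (Real.measurable_log.comp_aemeasurable
      ((Lp.memLp bL).1.norm.aemeasurable.const_sub 1)).aestronglyMeasurable
  refine Integrable.mono' (int_log_norm.const_mul (-2)) hm ?_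
  filter_upwards [bL_norm, ae_ne] with x h1 h2
  have h3 := one_sub_ge x
  have h4 := norm_pos_iff.2 h2
  have h5 : Real.log (1 - ‖PP 0 x‖) ≤ 0 :=
    Real.log_nonpos (by nlinarith) (by linarith [norm_nonneg (PP 0 x)])
  have h6 : Real.log (‖x‖ ^ 2) ≤ Real.log (1 - ‖PP 0 x‖) :=
    Real.log_le_log (by positivity) (by nlinarith)
  rw [Real.log_pow] at h6
  rw [h1, Real.norm_eq_abs, abs_of_nonpos h5]
  push_cast at h6
  linarith

lemma tendsto_eps : Tendsto (fun n : ℕ => 177 * ((n : ℝ) + 1) * dl n) atTop (𝓝 0) := by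
  have h1 := tendsto_self_mul_const_pow_of_lt_one (r := 1 / 2) (by norm_num) (by norm_num)
  have h2 := tendsto_pow_atTop_nhds_zero_of_lt_one (r := (1 / 2 : ℝ)) (by norm_num) (by norm_num)
  have h3 := (h1.add h2).const_mul 177
  rw [add_zero, mul_zero] at h3
  refine squeeze_zero (fun n => ?_) (fun n => ?_) h3
  · have := dl_pos n; positivity
  · have := dl_geo n
    calc _ ≤ 177 * ((n : ℝ) + 1) * (1 / 2) ^ n := by gcongr
      _ = _ := by ring

theorem main (A : ℝ≥0) : ∃ E : Set UnitAddCircle, IsOpen E ∧ A * cap1 bL E < cap2 bL E := by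
  have hA : (0 : ℝ) < 1 / (31000 * (A + 1)) := by positivity
  obtain ⟨n, hn⟩ := (tendsto_eps.eventually (gt_mem_nhds hA)).exists
  set ε : ℝ := 177 * ((n : ℝ) + 1) * dl n with hε
  have hp0 := dl_pos n
  have hε0 : 0 < ε := by positivity
  have hε1 : ε * (31000 * (A + 1)) < 1 := by rwa [lt_div_iff₀ (by positivity)] at hn
  set d : ℝ := dl (n + 1) with hd
  have hp : 0 < d := dl_pos (n + 1)
  have hd1 : d ≤ 1 / 30 := by
    have h1 : d ≤ dl n / 2 := dl_succ n
    have h2 : dl n ≤ ε := by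
      rw [hε]
      exact le_mul_of_one_le_left hp0.le (by linarith [n.cast_nonneg (α := ℝ)])
    have h3 : (0 : ℝ) ≤ A := A.2
    nlinarith
  set l : ℝ := lam (n + 1) with hl
  have hld : 1 - l = d := by rw [hl, lam]; ring
  have h0 : 0 ≤ l := lam0 _
  have h1 : l < 1 := lam1 _
  have nk : ∀ x, ‖kk l x‖ = ‖1 - l * zz x‖⁻¹ := fun x => by rw [kk, norm_inv]
  have np : ∀ x, 0 < ‖1 - l * zz x‖ := fun x => norm_pos_iff.2 (den_ne h0 h1 x)
  have up : ∀ (x : UnitAddCircle) (r : ℝ), ‖x‖ ≤ r * d → ‖1 - l * zz x‖ ≤ (7 * r + 1) * d := by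
    intro x r hx
    have e : 1 - l * zz x = (1 - zz x) + (d : ℂ) * zz x := by
      rw [← hld]; push_cast; ring
    rw [e]
    refine (norm_add_le _ _).trans ?_
    rw [norm_mul, norm_zz, Complex.norm_real, Real.norm_of_nonneg hp.le]
    have := (dist_bounds x).2
    linarith
  refine ⟨ball 0 (11 * d), isOpen_ball, ?_⟩
  have c1 : cap1 bL (ball 0 (11 * d)) ≤ ENNReal.ofReal (6084 * d) := by
    have hz : ∫ x, conj (kk l x) * bL x ∂mT = 0 := by
      rw [← int_lim (g := fun x => conj (kk l x)) (Complex.continuous_conj.comp (cont_kk h0 h1))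
        ((eventually_gt_atTop (n + 1)).mono fun N hN => PP_zero (n + 1) N hN)]
      refine integral_congr_ae ?_
      filter_upwards [bL_coe] with x hx
      rw [hx]
    obtain ⟨f, f1, f2⟩ := upper bL bL_le an_bL h0 h1 hz (78 * d)
    have f3 : ∀ᵐ x ∂mT, x ∈ ball (0 : UnitAddCircle) (11 * d) → 1 ≤ ‖(f : L2) x‖ := by
      filter_upwards [f1] with x hx hb
      rw [mem_ball_zero_iff] at hb
      rw [hx, norm_mul, nk, Complex.norm_real, Real.norm_of_nonneg (by positivity),
        ← div_eq_mul_inv, one_le_div (np x)]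
      have := up x 11 hb.le
      linarith
    rw [cap1, minHb_eq]
    refine iInf_le_of_le f (iInf_le_of_le ⟨ball 0 (11 * d), isOpen_ball, Subset.rfl, f3⟩
      (f2.trans ?_))
    refine ENNReal.ofReal_le_ofReal ?_
    rw [div_le_iff₀ (by nlinarith)]
    have h5 : d ≤ 1 - l ^ 2 := by nlinarith
    calc (78 * d) ^ 2 = 6084 * d * d := by ring
      _ ≤ _ := by gcongr
  have c2 : ENNReal.ofReal (d / (5 * ε)) ≤ cap2 bL (ball 0 (11 * d)) := by
    rw [cap2, minHb_eq]
    refine le_iInf fun f => le_iInf fun ⟨U, _, hU, hf⟩ =>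
      le_iInf fun g => le_iInf fun _ => le_iInf fun hg => ?_
    have sub : ∀ x ∈ (closedBall (0 : UnitAddCircle) (10 * d) \ closedBall 0 (9 * d))
        ∪ (closedBall 0 (2 * d) \ closedBall 0 d), d ≤ ‖x‖ ∧ ‖x‖ ≤ 10 * d := by
      rintro x (hx | hx)
      · simp only [Set.mem_sdiff, mem_closedBall_zero_iff, not_le] at hx
        constructor <;> linarith [hx.1, hx.2]
      · simp only [Set.mem_sdiff, mem_closedBall_zero_iff, not_le] at hx
        constructor <;> linarith [hx.1, hx.2]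
    have key := lower bL bL_le an_bL h0 h1 (c := (-1) ^ (n + 1)) (by simp) hε0.le
      (U1 := closedBall 0 (10 * d) \ closedBall 0 (9 * d))
      (U2 := closedBall 0 (2 * d) \ closedBall 0 d)
      (measurableSet_closedBall.diff measurableSet_closedBall)
      (measurableSet_closedBall.diff measurableSet_closedBall)
      (by
        rw [Set.disjoint_left]
        intro x a1 a2
        simp only [Set.mem_sdiff, mem_closedBall_zero_iff, not_le] at a1 a2
        linarith [a1.2, a2.1])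
      (L := 2 * d) (m := (30 * d)⁻¹) (M := (15 * d)⁻¹) (by positivity) (by positivity)
      (by positivity) (le_of_eq (by field_simp; norm_num))
      (by rw [meas_ann (by positivity) (by linarith) (by linarith)]; ring)
      (by rw [meas_ann (by positivity) (by linarith) (by linarith)]; ring)
      (by
        intro x hx
        simp only [Set.mem_sdiff, mem_closedBall_zero_iff, not_le] at hx
        rw [nk]
        refine inv_anti₀ (by positivity) ?_
        refine le_of_sq_le_sq ?_ (norm_nonneg _)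
        rw [den_sq]
        have a1 := (dist_bounds x).1
        have a2 : (36 * d) ^ 2 ≤ ‖1 - zz x‖ ^ 2 := by gcongr; linarith [hx.2]
        have a3 : 29 / 30 * (36 * d) ^ 2 ≤ l * ‖1 - zz x‖ ^ 2 := by gcongr; linarith
        nlinarith [sq_nonneg (1 - l)])
      (by
        intro x hx
        simp only [Set.mem_sdiff, mem_closedBall_zero_iff, not_le] at hx
        rw [nk]
        refine inv_anti₀ (np x) ?_
        have := up x 2 hx.1
        linarith)
      (by
        filter_upwards [bL_coe] with x hx hm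
        rw [hx]
        exact bf_approx n (sub x hm).1 (sub x hm).2)
      g
      (by
        rw [hg]
        filter_upwards [hf] with x hx hm
        refine hx (hU ?_)
        rw [mem_ball_zero_iff]
        linarith [(sub x hm).2])
    rw [← ofReal_norm, ← ENNReal.ofReal_pow (norm_nonneg _)]
    refine ENNReal.ofReal_le_ofReal ?_
    rw [div_le_iff₀ (by positivity)]
    linarith
  refine lt_of_le_of_lt (b := ENNReal.ofReal (A * (6084 * d))) ?_ (lt_of_lt_of_le ?_ c2)
  · rw [ENNReal.ofReal_mul A.coe_nonneg, ENNReal.ofReal_coe_nnreal]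
    gcongr
  · rw [ENNReal.ofReal_lt_ofReal_iff (by positivity), lt_div_iff₀ (by positivity)]
    have h3 : (0 : ℝ) ≤ A := A.2
    have h4 : ε * (30420 * A) < 1 := by nlinarith
    nlinarith

end Pool.Agent.H377Z.Cap
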